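import Pool.Agent.Helper67.DO.StmtsD

set_option autoImplicit false

/-!
# Module D2: elementary properties of the levels
-/

namespace Pool.Agent.Helper67.DO

open scoped BigOperators Real
open MeasureTheory

/-! ### local complexification and growth of the derivatives -/

/-- a real analytic function extends locally to a holomorphic function -/
theorem d2_ext {φ : ℝ → ℝ} {x0 : ℝ} (h : AnalyticAt ℝ φ x0) : ∃ (ρ : ℝ) (F : ℂ → ℂ), 0 < ρ ∧
    DifferentiableOn ℂ F (Metric.ball (x0 : ℂ) ρ) ∧
    ∀ x : ℝ, |x - x0| < ρ → F x = (φ x : ℂ) := by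
  obtain ⟨p, r, hp⟩ := h
  obtain ⟨ρ, hρ0, hρ1⟩ := ENNReal.lt_iff_exists_nnreal_btwn.mp hp.r_pos
  have hρpos : 0 < ρ := by exact_mod_cast hρ0
  have hρr : (ρ : ENNReal) < p.radius := lt_of_lt_of_le hρ1 hp.r_le
  obtain ⟨C, hC, hCb⟩ := p.norm_mul_pow_le_of_lt_radius hρr
  set q : FormalMultilinearSeries ℂ ℂ ℂ :=
    FormalMultilinearSeries.ofScalars ℂ (fun k => (p.coeff k : ℂ)) with hq
  have hqr : (ρ : ENNReal) ≤ q.radius := by
    apply q.le_radius_of_bound C
    intro k
    have h1 : ‖q k‖ = ‖p k‖ := by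
      rw [hq, FormalMultilinearSeries.ofScalars_norm, Complex.norm_real,
        FormalMultilinearSeries.norm_apply_eq_norm_coef]
    rw [h1]
    exact hCb k
  have hqpos : 0 < q.radius := lt_of_lt_of_le (by exact_mod_cast hρpos) hqr
  have h2 : HasFPowerSeriesOnBall (fun z => q.sum (z - (x0 : ℂ))) q (x0 : ℂ) q.radius := by
    simpa using (q.hasFPowerSeriesOnBall hqpos).comp_sub (x0 : ℂ)
  refine ⟨ρ, fun z => q.sum (z - (x0 : ℂ)), by exact_mod_cast hρpos, ?_, ?_⟩
  · have h3 := h2.differentiableOn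
    apply h3.mono
    intro z hz
    rw [Metric.mem_eball]
    apply lt_of_lt_of_le _ hqr
    rw [edist_nndist]
    have : dist z (x0 : ℂ) < ρ := hz
    rw [← coe_nndist] at this
    exact_mod_cast this
  · intro x hx
    have h4 : x ∈ Metric.eball x0 r := by
      rw [Metric.mem_eball]
      apply lt_trans _ hρ1
      rw [edist_nndist]
      have : dist x x0 < ρ := by rwa [Real.dist_eq]
      rw [← coe_nndist] at this
      exact_mod_cast this
    have h5 := hp.hasSum_sub h4
    have h6 : HasSum (fun k => ((p k (fun _ => x - x0) : ℝ) : ℂ)) (φ x : ℂ) :=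
      Complex.hasSum_ofReal.mpr h5
    have h7 : (x : ℂ) ∈ Metric.eball (x0 : ℂ) q.radius := by
      rw [Metric.mem_eball]
      apply lt_of_lt_of_le _ hqr
      rw [edist_nndist]
      have : dist (x : ℂ) (x0 : ℂ) < ρ := by
        rw [dist_eq_norm, ← Complex.ofReal_sub, Complex.norm_real]
        exact hx
      rw [← coe_nndist] at this
      exact_mod_cast this
    have h8 := h2.hasSum_sub h7
    apply h8.unique
    have h9 : (fun k => q k (fun _ => (x : ℂ) - (x0 : ℂ)))
        = fun k => ((p k (fun _ => x - x0) : ℝ) : ℂ) := by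
      funext k
      rw [FormalMultilinearSeries.apply_eq_pow_smul_coeff,
        FormalMultilinearSeries.apply_eq_pow_smul_coeff, hq,
        FormalMultilinearSeries.coeff_ofScalars]
      simp
    rw [h9]
    exact h6

theorem d2_an_iter {φ : ℝ → ℝ} (hφ : ∀ x, AnalyticAt ℝ φ x) (k : ℕ) (x : ℝ) :
    AnalyticAt ℝ (iteratedDeriv k φ) x := by
  rw [iteratedDeriv_eq_iterate]
  exact (hφ x).iterated_deriv k

theorem d2_iter {φ : ℝ → ℝ} {x0 ρ : ℝ} {F : ℂ → ℂ} (hφ : ∀ x, AnalyticAt ℝ φ x)
    (hF : DifferentiableOn ℂ F (Metric.ball (x0 : ℂ) ρ))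
    (h : ∀ x : ℝ, |x - x0| < ρ → F x = (φ x : ℂ)) (k : ℕ) :
    ∀ x : ℝ, |x - x0| < ρ → iteratedDeriv k F x = ((iteratedDeriv k φ x : ℝ) : ℂ) := by
  induction k with
  | zero => simpa using h
  | succ k ih =>
    intro x hx
    have hxb : (x : ℂ) ∈ Metric.ball (x0 : ℂ) ρ := by
      rw [Metric.mem_ball, dist_eq_norm, ← Complex.ofReal_sub, Complex.norm_real]
      exact hx
    have h1 : DifferentiableAt ℂ (iteratedDeriv k F) (x : ℂ) := by
      have h2 : AnalyticAt ℂ F (x : ℂ) := hF.analyticAt (Metric.isOpen_ball.mem_nhds hxb)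
      rw [iteratedDeriv_eq_iterate]
      exact (h2.iterated_deriv k).differentiableAt
    have h3 : HasDerivAt (fun y : ℝ => iteratedDeriv k F (y : ℂ))
        (deriv (iteratedDeriv k F) (x : ℂ)) x := h1.hasDerivAt.comp_ofReal
    have h4 : HasDerivAt (iteratedDeriv k φ) (deriv (iteratedDeriv k φ) x) x :=
      (d2_an_iter hφ k x).differentiableAt.hasDerivAt
    have h5 := h4.ofReal_comp
    have h6 : (fun y : ℝ => iteratedDeriv k F (y : ℂ)) =ᶠ[nhds x]
        fun y : ℝ => ((iteratedDeriv k φ y : ℝ) : ℂ) := by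
      have : {y : ℝ | |y - x0| < ρ} ∈ nhds x := by
        apply IsOpen.mem_nhds
        · exact isOpen_lt (by fun_prop) continuous_const
        · exact hx
      filter_upwards [this] with y hy
      exact ih y hy
    rw [iteratedDeriv_succ, iteratedDeriv_succ]
    exact (h3.congr_of_eventuallyEq h6.symm).unique h5

/-- growth of the derivatives of a real analytic function on a compact set -/
theorem d2_growth {φ : ℝ → ℝ} (hφ : ∀ x, AnalyticAt ℝ φ x) {S : Set ℝ} (hS : IsCompact S) :
    ∃ C R : ℝ, 0 ≤ C ∧ 0 < R ∧ ∀ x ∈ S, ∀ k : ℕ,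
      |iteratedDeriv k φ x| ≤ C * R ^ k * (k.factorial : ℝ) := by
  refine hS.induction_on (p := fun S => ∃ C R : ℝ, 0 ≤ C ∧ 0 < R ∧ ∀ x ∈ S, ∀ k : ℕ,
      |iteratedDeriv k φ x| ≤ C * R ^ k * (k.factorial : ℝ)) ?_ ?_ ?_ ?_
  · exact ⟨0, 1, le_rfl, one_pos, fun x hx => absurd hx (Set.notMem_empty x)⟩
  · rintro s t hst ⟨C, R, hC, hR, h⟩
    exact ⟨C, R, hC, hR, fun x hx => h x (hst hx)⟩
  · rintro s t ⟨C, R, hC, hR, h⟩ ⟨C', R', hC', hR', h'⟩
    refine ⟨max C C', max R R', le_max_of_le_left hC, lt_max_of_lt_left hR, ?_⟩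
    rintro x (hx | hx) k
    · refine (h x hx k).trans ?_
      apply mul_le_mul_of_nonneg_right _ (Nat.cast_nonneg _)
      exact mul_le_mul (le_max_left _ _) (pow_le_pow_left₀ hR.le (le_max_left _ _) k)
        (pow_nonneg hR.le k) (le_max_of_le_left hC)
    · refine (h' x hx k).trans ?_
      apply mul_le_mul_of_nonneg_right _ (Nat.cast_nonneg _)
      exact mul_le_mul (le_max_right _ _) (pow_le_pow_left₀ hR'.le (le_max_right _ _) k)
        (pow_nonneg hR'.le k) (le_max_of_le_left hC)
  · intro x0 _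
    obtain ⟨ρ, F, hρ, hF, hFφ⟩ := d2_ext (hφ x0)
    have hc : ContinuousOn F (Metric.closedBall (x0 : ℂ) (ρ / 2)) :=
      hF.continuousOn.mono (Metric.closedBall_subset_ball (by linarith))
    obtain ⟨C, hC⟩ := (isCompact_closedBall (x0 : ℂ) (ρ / 2)).exists_bound_of_continuousOn hc
    refine ⟨Metric.ball x0 (ρ / 4), mem_nhdsWithin_of_mem_nhds
      (Metric.ball_mem_nhds x0 (by linarith)), max C 0, (ρ / 4)⁻¹, le_max_right _ _,
      by positivity, ?_⟩
    intro x hx k
    have hx1 : |x - x0| < ρ / 4 := by rwa [Metric.mem_ball, Real.dist_eq] at hx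
    have hsub : Metric.closedBall (x : ℂ) (ρ / 4) ⊆ Metric.closedBall (x0 : ℂ) (ρ / 2) := by
      apply Metric.closedBall_subset_closedBall'
      rw [dist_eq_norm, ← Complex.ofReal_sub, Complex.norm_real, Real.norm_eq_abs]
      linarith
    have h1 : ‖iteratedDeriv k F (x : ℂ)‖ ≤ k.factorial * C / (ρ / 4) ^ k := by
      apply Complex.norm_iteratedDeriv_le_of_forall_mem_sphere_norm_le k (by linarith)
      · apply DifferentiableOn.diffContOnCl
        rw [closure_ball _ (by positivity)]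
        exact (hF.mono (Metric.closedBall_subset_ball (by linarith : ρ / 2 < ρ))).mono hsub
      · intro z hz
        exact hC z (hsub (Metric.sphere_subset_closedBall hz))
    rw [d2_iter hφ hF hFφ k x (by linarith), Complex.norm_real, Real.norm_eq_abs] at h1
    refine h1.trans ?_
    rw [inv_pow]
    have h2 : (k.factorial : ℝ) * C / (ρ / 4) ^ k = C * ((ρ / 4) ^ k)⁻¹ * k.factorial := by
      ring
    rw [h2]
    apply mul_le_mul_of_nonneg_right _ (Nat.cast_nonneg _)
    exact mul_le_mul_of_nonneg_right (le_max_left _ _) (by positivity)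

theorem d2_per_iter {φ : ℝ → ℝ} (hper : ∀ x, φ (x + 1) = φ x) (k : ℕ) (x : ℝ) :
    iteratedDeriv k φ (x + 1) = iteratedDeriv k φ x := by
  have h := iteratedDeriv_comp_add_const k φ 1
  have h1 : (fun z => φ (z + 1)) = φ := funext hper
  rw [h1] at h
  exact (congrFun h x).symm

/-! ### Fourier coefficients -/

theorem d2_exp_one (l : ℤ) : Complex.exp (-(2 * π * Complex.I * l * (1 : ℝ))) = 1 := by
  have h := Complex.exp_int_mul_two_pi_mul_I (-l)
  rw [← h]
  congr 1
  push_cast
  ring

theorem d2_exp_norm (l : ℤ) (x : ℝ) : ‖Complex.exp (-(2 * π * Complex.I * l * x))‖ = 1 := by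
  rw [Complex.norm_exp]
  simp

theorem d2_exp_cont (l : ℤ) :
    Continuous (fun x : ℝ => Complex.exp (-(2 * π * Complex.I * l * x))) := by
  fun_prop

theorem d2_exp_deriv (l : ℤ) (x : ℝ) :
    HasDerivAt (fun x : ℝ => Complex.exp (-(2 * π * Complex.I * l * x)))
      (Complex.exp (-(2 * π * Complex.I * l * x)) * (-(2 * π * Complex.I * l))) x := by
  have h1 : HasDerivAt (fun z : ℂ => -(2 * π * Complex.I * l * z)) (-(2 * π * Complex.I * l))
      (x : ℂ) := by
    have h0 := (hasDerivAt_id (x : ℂ)).const_mul (-(2 * π * Complex.I * l : ℂ))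
    rw [mul_one] at h0
    have h2 : (fun z : ℂ => -(2 * π * Complex.I * l * z))
        = fun z : ℂ => -(2 * π * Complex.I * l) * id z := by
      funext z
      simp only [id]
      ring
    rw [h2]
    exact h0
  exact h1.cexp.comp_ofReal

/-- the Fourier coefficients of the derivative -/
theorem d2_fco_deriv {f f' : ℝ → ℝ} (hf : ∀ x, HasDerivAt f (f' x) x) (hc : Continuous f')
    (h01 : f 1 = f 0) (l : ℤ) : fco f' l = (2 * π * Complex.I * l) * fco f l := by
  unfold fco
  have h1 : ∀ x ∈ Set.uIcc (0 : ℝ) 1, HasDerivAt (fun x : ℝ => (f x : ℂ)) ((f' x : ℝ) : ℂ) x :=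
    fun x _ => (hf x).ofReal_comp
  have h2 : ∀ x ∈ Set.uIcc (0 : ℝ) 1, HasDerivAt
      (fun x : ℝ => Complex.exp (-(2 * π * Complex.I * l * x)))
      (Complex.exp (-(2 * π * Complex.I * l * x)) * (-(2 * π * Complex.I * l))) x :=
    fun x _ => d2_exp_deriv l x
  have h3 := intervalIntegral.integral_deriv_mul_eq_sub h1 h2
    ((Complex.continuous_ofReal.comp hc).intervalIntegrable _ _)
    (((d2_exp_cont l).mul continuous_const).intervalIntegrable _ _)
  rw [d2_exp_one, h01] at h3
  simp only [Complex.ofReal_zero, mul_zero, neg_zero, Complex.exp_zero, mul_one, sub_self] at h3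
  have hfc : Continuous f := continuous_iff_continuousAt.2 fun x => (hf x).continuousAt
  rw [intervalIntegral.integral_add] at h3
  · have h4 : (∫ x in (0 : ℝ)..1, (f x : ℂ) *
        (Complex.exp (-(2 * π * Complex.I * l * x)) * (-(2 * π * Complex.I * l))))
        = -(2 * π * Complex.I * l) * ∫ x in (0 : ℝ)..1, (f x : ℂ) *
          Complex.exp (-(2 * π * Complex.I * l * x)) := by
      rw [← intervalIntegral.integral_const_mul]
      apply intervalIntegral.integral_congr
      intro x _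
      ring
    rw [h4] at h3
    linear_combination h3
  · exact ((Complex.continuous_ofReal.comp hc).mul (d2_exp_cont l)).intervalIntegrable _ _
  · exact ((Complex.continuous_ofReal.comp hfc).mul
      ((d2_exp_cont l).mul continuous_const)).intervalIntegrable _ _

theorem d2_fco_iter {φ : ℝ → ℝ} (hφ : ∀ x, AnalyticAt ℝ φ x) (hper : ∀ x, φ (x + 1) = φ x)
    (l : ℤ) (k : ℕ) : fco (iteratedDeriv k φ) l = (2 * π * Complex.I * l) ^ k * fco φ l := by
  induction k with
  | zero => simp
  | succ k ih =>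
    have h1 : ∀ x, HasDerivAt (iteratedDeriv k φ) (iteratedDeriv (k + 1) φ x) x := by
      intro x
      rw [iteratedDeriv_succ]
      exact (d2_an_iter hφ k x).differentiableAt.hasDerivAt
    have h2 : Continuous (iteratedDeriv (k + 1) φ) :=
      continuous_iff_continuousAt.2 fun x => (d2_an_iter hφ (k + 1) x).continuousAt
    have h3 : iteratedDeriv k φ 1 = iteratedDeriv k φ 0 := by
      have := d2_per_iter hper k 0
      rwa [zero_add] at this
    rw [d2_fco_deriv h1 h2 h3, ih, pow_succ]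
    ring

/-- a bound for a function gives a bound for its Fourier coefficients -/
theorem d2_fco_le {f : ℝ → ℝ} {C : ℝ} (h : ∀ x ∈ Set.Icc (0 : ℝ) 1, |f x| ≤ C) (l : ℤ) :
    ‖fco f l‖ ≤ C := by
  unfold fco
  have h1 := intervalIntegral.norm_integral_le_of_norm_le_const (a := (0 : ℝ)) (b := 1) (C := C)
    (f := fun x : ℝ => (f x : ℂ) * Complex.exp (-(2 * π * Complex.I * l * x))) (by
      intro x hx
      rw [Set.uIoc_of_le zero_le_one] at hx
      rw [norm_mul, d2_exp_norm, mul_one, Complex.norm_real]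
      exact h x ⟨hx.1.le, hx.2⟩)
  simpa using h1

/-- exponential decay of the Fourier coefficients of a real analytic periodic function -/
theorem d2_decay {φ : ℝ → ℝ} (hφ : ∀ x, AnalyticAt ℝ φ x) (hper : ∀ x, φ (x + 1) = φ x) :
    ∃ C R : ℝ, 0 ≤ C ∧ 0 < R ∧ ∀ l : ℤ, ‖fco φ l‖ ≤ C * Real.exp (-(2 * π * |(l : ℝ)| / R)) := by
  obtain ⟨C, R, hC, hR, h⟩ := d2_growth hφ (isCompact_Icc (a := (0 : ℝ)) (b := 1))
  refine ⟨2 * C, 2 * R, by positivity, by positivity, ?_⟩
  intro l
  by_cases hl : l = 0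
  · subst hl
    have h1 := d2_fco_le (f := φ) (C := C) (fun x hx => by simpa using h x hx 0) 0
    simp only [Int.cast_zero, abs_zero, mul_zero, zero_div, neg_zero, Real.exp_zero, mul_one]
    linarith
  have hl' : (0 : ℝ) < |(l : ℝ)| := abs_pos.mpr (by exact_mod_cast hl)
  set X : ℝ := 2 * π * |(l : ℝ)| with hX
  have hXpos : 0 < X := by positivity
  have h1 : ∀ k : ℕ, X ^ k * ‖fco φ l‖ ≤ C * R ^ k * (k.factorial : ℝ) := by
    intro k
    have h2 := d2_fco_le (f := iteratedDeriv k φ) (C := C * R ^ k * (k.factorial : ℝ))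
      (fun x hx => h x hx k) l
    rw [d2_fco_iter hφ hper, norm_mul, norm_pow] at h2
    have h3 : ‖(2 * π * Complex.I * l : ℂ)‖ = X := by
      rw [hX]
      simp [abs_of_pos Real.pi_pos]
    rwa [h3] at h2
  have h4 : HasSum (fun k : ℕ => (X / (2 * R)) ^ k / (k.factorial : ℝ)) (Real.exp (X / (2 * R))) := by
    rw [Real.exp_eq_exp_ℝ]
    exact NormedSpace.expSeries_div_hasSum_exp (X / (2 * R))
  have h5 := h4.mul_left ‖fco φ l‖
  have h6 : HasSum (fun k : ℕ => C * (1 / 2 : ℝ) ^ k) (C * 2) := hasSum_geometric_two.mul_left C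
  have h7 : ‖fco φ l‖ * Real.exp (X / (2 * R)) ≤ C * 2 := by
    apply hasSum_le _ h5 h6
    intro k
    have hk : (0 : ℝ) < (k.factorial : ℝ) := by exact_mod_cast Nat.factorial_pos k
    have h8 := h1 k
    have h9 : ‖fco φ l‖ * ((X / (2 * R)) ^ k / (k.factorial : ℝ))
        = (X ^ k * ‖fco φ l‖) / ((2 * R) ^ k * k.factorial) := by
      rw [div_pow]
      field_simp
    rw [h9, div_le_iff₀ (by positivity), mul_pow 2 R k]
    have h10 : C * (1 / 2 : ℝ) ^ k * (2 ^ k * R ^ k * k.factorial) = C * R ^ k * k.factorial := by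
      rw [one_div, inv_pow]
      field_simp
    rw [h10]
    exact h8
  rw [Real.exp_neg, ← div_eq_mul_inv, le_div_iff₀ (Real.exp_pos _)]
  linarith

/-! ### lifts -/

theorem d2_deriv_an {Φ : ℝ → ℝ} (h : IsLift Φ) (x : ℝ) : AnalyticAt ℝ (deriv Φ) x := (h.an x).deriv

theorem d2_deriv_per {Φ : ℝ → ℝ} (h : IsLift Φ) : Function.Periodic (deriv Φ) 1 := by
  intro x
  have h1 : deriv (fun x => Φ (x + 1)) x = deriv Φ (x + 1) := deriv_comp_add_const Φ 1 x
  have h2 : (fun x => Φ (x + 1)) = fun x => Φ x + 1 := funext h.per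
  rw [h2, deriv_add_const] at h1
  exact h1.symm

theorem d2_min {Φ : ℝ → ℝ} (h : IsLift Φ) : ∃ c : ℝ, 0 < c ∧ ∀ x, c ≤ deriv Φ x := by
  have hc : Continuous (deriv Φ) :=
    continuous_iff_continuousAt.2 fun x => (d2_deriv_an h x).continuousAt
  obtain ⟨m, hm, hmin⟩ := isCompact_Icc.exists_isMinOn (s := Set.Icc (0 : ℝ) 1)
    ⟨0, by simp⟩ hc.continuousOn
  refine ⟨deriv Φ m, h.pos m, fun x => ?_⟩
  obtain ⟨y, hy, hxy⟩ := (d2_deriv_per h).exists_mem_Ico₀ one_pos x
  rw [hxy]
  exact hmin ⟨hy.1, hy.2.le⟩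

theorem d2_osc {Φ : ℝ → ℝ} (h : IsLift Φ) (x : ℝ) : |Φ x - x - Φ 0| ≤ 1 := by
  have h1 : Φ x = Φ (Int.fract x) + ⌊x⌋ := by
    have := h.perInt ⌊x⌋ (Int.fract x)
    rw [← this, Int.fract_add_floor]
  have h2 : Φ 0 ≤ Φ (Int.fract x) := h.mono.monotone (Int.fract_nonneg x)
  have h3 : Φ (Int.fract x) ≤ Φ 1 := h.mono.monotone (Int.fract_lt_one x).le
  have h4 : Φ 1 = Φ 0 + 1 := by
    have := h.per 0
    rwa [zero_add] at this
  have h5 : x = Int.fract x + ⌊x⌋ := (Int.fract_add_floor x).symm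
  have h6 := Int.fract_nonneg x
  have h7 := Int.fract_lt_one x
  rw [abs_le]
  constructor <;> linarith

theorem d2_fco_sum (s : Finset ℕ) (c : ℕ → ℝ) (f : ℕ → ℝ → ℝ) (hf : ∀ i ∈ s, Continuous (f i))
    (l : ℤ) : fco (fun x => ∑ i ∈ s, c i * f i x) l = ∑ i ∈ s, (c i : ℂ) * fco (f i) l := by
  unfold fco
  have h1 : ∀ x : ℝ, ((∑ i ∈ s, c i * f i x : ℝ) : ℂ) * Complex.exp (-(2 * π * Complex.I * l * x))
      = ∑ i ∈ s, (c i : ℂ) * ((f i x : ℂ) * Complex.exp (-(2 * π * Complex.I * l * x))) := by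
    intro x
    rw [Complex.ofReal_sum, Finset.sum_mul]
    apply Finset.sum_congr rfl
    intro i _
    push_cast
    ring
  simp only [h1]
  rw [intervalIntegral.integral_finsetSum]
  · apply Finset.sum_congr rfl
    intro i _
    rw [intervalIntegral.integral_const_mul]
  · intro i hi
    exact (((Complex.continuous_ofReal.comp (hf i hi)).mul
      (d2_exp_cont l)).const_mul _).intervalIntegrable _ _

theorem d2_fco_const (t : ℝ) {l : ℤ} (hl : l ≠ 0) : fco (fun _ => t) l = 0 := by
  unfold fco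
  have hc : (-(2 * π * Complex.I * l) : ℂ) ≠ 0 := by
    have : (l : ℂ) ≠ 0 := by exact_mod_cast hl
    have h2 : (π : ℂ) ≠ 0 := by exact_mod_cast Real.pi_ne_zero
    simp [this, h2]
  rw [intervalIntegral.integral_const_mul]
  have h3 : (∫ x in (0 : ℝ)..1, Complex.exp (-(2 * π * Complex.I * l * x))) = 0 := by
    have h4 := integral_exp_mul_complex (a := 0) (b := 1) hc
    have h5 : (fun x : ℝ => Complex.exp (-(2 * π * Complex.I * l * x)))
        = fun x : ℝ => Complex.exp (-(2 * π * Complex.I * l) * x) := by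
      funext x
      congr 1
      ring
    rw [h5, h4]
    have h6 := d2_exp_one l
    have h7 : Complex.exp (-(2 * π * Complex.I * l) * ((1 : ℝ) : ℂ)) = 1 := by
      rw [← h6]
      congr 1
      ring
    rw [h7]
    simp
  rw [h3, mul_zero]

theorem d2_lift_cont {Φ : ℝ → ℝ} (h : IsLift Φ) : Continuous (fun x => Φ x - x) :=
  h.cont.sub continuous_id

/-- convex combinations -/
theorem d2_conv {n : ℕ} (hn : 1 ≤ n) (s : Finset ℕ) (c : ℕ → ℝ) (y : ℕ → ℝ → ℝ)
    (hc : ∀ i ∈ s, 0 ≤ c i) (h1 : ∑ i ∈ s, c i = 1) (hy : ∀ i ∈ s, y i ∈ AA n) :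
    (fun x => ∑ i ∈ s, c i * y i x) ∈ AA n := by
  have hn0 : (0 : ℝ) < n := by exact_mod_cast hn
  have hd : ∀ x, HasDerivAt (fun x => ∑ i ∈ s, c i * y i x) (∑ i ∈ s, c i * deriv (y i) x) x := by
    intro x
    exact HasDerivAt.fun_sum fun i hi => ((hy i hi).1.diff x).hasDerivAt.const_mul (c i)
  have hlow : ∀ x, 1 / (n : ℝ) ≤ deriv (fun x => ∑ i ∈ s, c i * y i x) x := by
    intro x
    rw [(hd x).deriv]
    calc 1 / (n : ℝ) = ∑ i ∈ s, c i * (1 / (n : ℝ)) := by rw [← Finset.sum_mul, h1, one_mul]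
      _ ≤ ∑ i ∈ s, c i * deriv (y i) x := Finset.sum_le_sum fun i hi =>
          mul_le_mul_of_nonneg_left ((hy i hi).2.2 x) (hc i hi)
  refine ⟨⟨?_, ?_, ?_⟩, ?_, hlow⟩
  · intro x
    exact Finset.analyticAt_fun_sum s fun i hi => analyticAt_const.mul ((hy i hi).1.an x)
  · intro x
    calc ∑ i ∈ s, c i * y i (x + 1) = ∑ i ∈ s, (c i * y i x + c i) := by
          apply Finset.sum_congr rfl
          intro i hi
          rw [(hy i hi).1.per]
          ring
      _ = ∑ i ∈ s, c i * y i x + 1 := by rw [Finset.sum_add_distrib, h1]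
  · intro x
    exact lt_of_lt_of_le (by positivity) (hlow x)
  · intro l hl
    have h2 : (fun x => (∑ i ∈ s, c i * y i x) - x) = fun x => ∑ i ∈ s, c i * (y i x - x) := by
      funext x
      simp only [mul_sub, Finset.sum_sub_distrib]
      rw [← Finset.sum_mul, h1, one_mul]
    rw [h2, d2_fco_sum s c (fun i x => y i x - x) (fun i hi => d2_lift_cont (hy i hi).1)]
    calc ‖∑ i ∈ s, (c i : ℂ) * fco (fun x => y i x - x) l‖
        ≤ ∑ i ∈ s, ‖(c i : ℂ) * fco (fun x => y i x - x) l‖ := norm_sum_le _ _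
      _ ≤ ∑ i ∈ s, c i * (n * Real.exp (-(2 * π * |(l : ℝ)| / n))) := by
          apply Finset.sum_le_sum
          intro i hi
          rw [norm_mul, Complex.norm_real, Real.norm_of_nonneg (hc i hi)]
          exact mul_le_mul_of_nonneg_left ((hy i hi).2.1 l hl) (hc i hi)
      _ = n * Real.exp (-(2 * π * |(l : ℝ)| / n)) := by rw [← Finset.sum_mul, h1, one_mul]

theorem d2_mono {n m : ℕ} (hn : 1 ≤ n) (hnm : n ≤ m) : AA n ⊆ AA m := by
  rintro Φ ⟨h1, h2, h3⟩
  have hn0 : (0 : ℝ) < n := by exact_mod_cast hn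
  have hnm' : (n : ℝ) ≤ m := by exact_mod_cast hnm
  have hm0 : (0 : ℝ) < m := lt_of_lt_of_le hn0 hnm'
  refine ⟨h1, fun l hl => (h2 l hl).trans ?_, fun x => le_trans ?_ (h3 x)⟩
  · apply mul_le_mul hnm' _ (Real.exp_nonneg _) hm0.le
    rw [Real.exp_le_exp, neg_le_neg_iff]
    exact div_le_div_of_nonneg_left (by positivity) hn0 hnm'
  · exact one_div_le_one_div_of_le hn0 hnm'

theorem d2_exh (Φ : ℝ → ℝ) (h : IsLift Φ) : ∃ n : ℕ, 1 ≤ n ∧ Φ ∈ AA n := by
  have han : ∀ x, AnalyticAt ℝ (fun x => Φ x - x) x := fun x => (h.an x).sub analyticAt_id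
  have hper : ∀ x, (fun x => Φ x - x) (x + 1) = (fun x => Φ x - x) x := by
    intro x
    beta_reduce
    rw [h.per]
    ring
  obtain ⟨C, R, hC, hR, hdec⟩ := d2_decay han hper
  obtain ⟨c, hc, hmin⟩ := d2_min h
  obtain ⟨n, hn⟩ := exists_nat_ge (max (max C R) (max (1 / c) 1))
  have hnC : C ≤ n := le_trans (le_trans (le_max_left _ _) (le_max_left _ _)) hn
  have hnR : R ≤ n := le_trans (le_trans (le_max_right _ _) (le_max_left _ _)) hn
  have hnc : 1 / c ≤ n := le_trans (le_trans (le_max_left _ _) (le_max_right _ _)) hn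
  have hn1 : (1 : ℝ) ≤ n := le_trans (le_trans (le_max_right _ _) (le_max_right _ _)) hn
  refine ⟨n, by exact_mod_cast hn1, h, fun l _ => (hdec l).trans ?_, fun x => ?_⟩
  · apply mul_le_mul hnC _ (Real.exp_nonneg _) (by linarith)
    rw [Real.exp_le_exp, neg_le_neg_iff]
    exact div_le_div_of_nonneg_left (by positivity) hR hnR
  · refine le_trans ?_ (hmin x)
    rw [div_le_iff₀ (by linarith)]
    rw [div_le_iff₀ hc] at hnc
    linarith

theorem d2_lift_add {Φ : ℝ → ℝ} (h : IsLift Φ) (t : ℝ) : IsLift (fun x => Φ x + t) where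
  an x := (h.an x).add analyticAt_const
  per x := by rw [h.per]; ring
  pos x := by
    rw [deriv_add_const]
    exact h.pos x

theorem d2_lift_shift {Φ : ℝ → ℝ} (h : IsLift Φ) (t : ℝ) : IsLift (fun x => Φ (x + t)) :=
  h.comp (d2_lift_add isLift_id t)

/-- adding a constant does not change the nonzero Fourier coefficients -/
theorem d2_fco_add {f : ℝ → ℝ} (hf : Continuous f) (t : ℝ) {l : ℤ} (hl : l ≠ 0) :
    fco (fun x => f x + t) l = fco f l := by
  have h1 := d2_fco_const t hl
  unfold fco at h1 ⊢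
  rw [← add_zero (∫ x in (0 : ℝ)..1, (f x : ℂ) * Complex.exp (-(2 * π * Complex.I * l * x))), ← h1,
    ← intervalIntegral.integral_add]
  · apply intervalIntegral.integral_congr
    intro x _
    beta_reduce
    push_cast
    ring
  · exact ((Complex.continuous_ofReal.comp hf).mul (d2_exp_cont l)).intervalIntegrable _ _
  · exact ((Complex.continuous_ofReal.comp continuous_const).mul
      (d2_exp_cont l)).intervalIntegrable _ _

/-- Fourier coefficients of a translate -/
theorem d2_fco_shift {f : ℝ → ℝ} (hper : ∀ x, f (x + 1) = f x) (t : ℝ) (l : ℤ) :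
    ‖fco (fun x => f (x + t)) l‖ = ‖fco f l‖ := by
  have hE : ∀ x : ℝ, Complex.exp (-(2 * π * Complex.I * l * ((x + 1 : ℝ) : ℂ)))
      = Complex.exp (-(2 * π * Complex.I * l * x)) := by
    intro x
    have h1 := d2_exp_one l
    have h2 : -(2 * π * Complex.I * l * ((x + 1 : ℝ) : ℂ))
        = -(2 * π * Complex.I * l * x) + -(2 * π * Complex.I * l * (1 : ℝ)) := by
      push_cast
      ring
    rw [h2, Complex.exp_add, h1, mul_one]
  have h3 : fco (fun x => f (x + t)) l
      = Complex.exp (2 * π * Complex.I * l * t) * fco f l := by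
    unfold fco
    have h4 : ∀ x : ℝ, ((f (x + t) : ℝ) : ℂ) * Complex.exp (-(2 * π * Complex.I * l * x))
        = Complex.exp (2 * π * Complex.I * l * t) * (((f (x + t) : ℝ) : ℂ) *
          Complex.exp (-(2 * π * Complex.I * l * ((x + t : ℝ) : ℂ)))) := by
      intro x
      have h5 : Complex.exp (-(2 * π * Complex.I * l * x))
          = Complex.exp (2 * π * Complex.I * l * t) *
            Complex.exp (-(2 * π * Complex.I * l * ((x + t : ℝ) : ℂ))) := by
        rw [← Complex.exp_add]
        congr 1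
        push_cast
        ring
      rw [h5]
      ring
    simp only [h4]
    rw [intervalIntegral.integral_const_mul]
    congr 1
    rw [intervalIntegral.integral_comp_add_right
      (fun x : ℝ => (f x : ℂ) * Complex.exp (-(2 * π * Complex.I * l * (x : ℂ)))) t]
    have h6 : Function.Periodic
        (fun x : ℝ => (f x : ℂ) * Complex.exp (-(2 * π * Complex.I * l * (x : ℂ)))) 1 := by
      intro x
      beta_reduce
      rw [hE, hper]
    have h7 := h6.intervalIntegral_add_eq t 0
    rw [zero_add] at h7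
    rw [zero_add, add_comm 1 t]
    exact h7
  rw [h3, norm_mul, Complex.norm_exp]
  have : (2 * π * Complex.I * l * t : ℂ).re = 0 := by simp
  rw [this, Real.exp_zero, one_mul]

theorem d2_add_mem {n : ℕ} {Φ : ℝ → ℝ} (h : Φ ∈ AA n) (t : ℝ) : (fun x => Φ x + t) ∈ AA n := by
  refine ⟨d2_lift_add h.1 t, fun l hl => ?_, fun x => ?_⟩
  · have h1 : (fun x => Φ x + t - x) = fun x => (Φ x - x) + t := by
      funext x
      ring
    rw [h1, d2_fco_add (d2_lift_cont h.1) t hl]
    exact h.2.1 l hl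
  · rw [deriv_add_const]
    exact h.2.2 x

theorem d2_shift_mem {n : ℕ} {Φ : ℝ → ℝ} (h : Φ ∈ AA n) (t : ℝ) : (fun x => Φ (x + t)) ∈ AA n := by
  refine ⟨d2_lift_shift h.1 t, fun l hl => ?_, fun x => ?_⟩
  · have h1 : (fun x => Φ (x + t) - x) = fun x => (Φ (x + t) - (x + t)) + t := by
      funext x
      ring
    have hc : Continuous (fun x => Φ (x + t) - (x + t)) :=
      (d2_lift_cont h.1).comp (continuous_id.add continuous_const)
    rw [h1, d2_fco_add hc t hl,
      d2_fco_shift (f := fun x => Φ x - x) (fun x => by rw [h.1.per]; ring) t l]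
    exact h.2.1 l hl
  · rw [deriv_comp_add_const]
    exact h.2.2 _

theorem d2_id_mem {n : ℕ} (hn : 1 ≤ n) : (fun x : ℝ => x) ∈ AA n := by
  have hn1 : (1 : ℝ) ≤ n := by exact_mod_cast hn
  refine ⟨isLift_id, fun l hl => ?_, fun x => ?_⟩
  · have h1 : (fun x : ℝ => x - x) = fun _ => (0 : ℝ) := by
      funext x
      ring
    rw [h1, d2_fco_const 0 hl, norm_zero]
    positivity
  · rw [deriv_id'', div_le_one (by linarith)]
    exact hn1

/-! ### simplices -/

theorem d2_lam_nonneg (q i : ℕ) {u : Fin q → ℝ} (hu : u ∈ Set.Icc (0 : Fin q → ℝ) 1) :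
    0 ≤ lam q i u := by
  unfold lam
  apply mul_nonneg
  · apply Finset.prod_nonneg
    intro k _
    split_ifs
    · exact hu.1 k
    · exact zero_le_one
  · apply Finset.prod_nonneg
    intro k _
    split_ifs
    · exact sub_nonneg.mpr (hu.2 k)
    · exact zero_le_one

theorem d2_lam_sum (q : ℕ) (u : Fin q → ℝ) : ∑ i ∈ Finset.range (q + 1), lam q i u = 1 := by
  set P : ℕ → ℝ := fun i => ∏ k : Fin q, if (k : ℕ) < i then u k else 1 with hP
  have h1 : ∀ i < q, lam q i u = P i - P (i + 1) := by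
    intro i hi
    have h2 : (∏ k : Fin q, if (k : ℕ) = i then 1 - u k else 1) = 1 - u ⟨i, hi⟩ := by
      rw [Finset.prod_eq_single (⟨i, hi⟩ : Fin q)]
      · simp
      · intro b _ hb
        rw [if_neg]
        intro h
        exact hb (Fin.ext h)
      · simp
    have h3 : P (i + 1) = P i * u ⟨i, hi⟩ := by
      have h4 : (∏ k : Fin q, if (k : ℕ) = i then u k else 1) = u ⟨i, hi⟩ := by
        rw [Finset.prod_eq_single (⟨i, hi⟩ : Fin q)]
        · simp
        · intro b _ hb
          rw [if_neg]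
          intro h
          exact hb (Fin.ext h)
        · simp
      rw [← h4, hP]
      beta_reduce
      rw [← Finset.prod_mul_distrib]
      apply Finset.prod_congr rfl
      intro k _
      by_cases h5 : (k : ℕ) < i
      · rw [if_pos (by omega), if_pos h5, if_neg (by omega), mul_one]
      · by_cases h6 : (k : ℕ) = i
        · rw [if_pos (by omega), if_neg h5, if_pos h6, one_mul]
        · rw [if_neg (by omega), if_neg h5, if_neg h6, one_mul]
    unfold lam
    rw [h2, h3]
    ring
  have h7 : lam q q u = P q := by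
    unfold lam
    have : (∏ k : Fin q, if (k : ℕ) = q then 1 - u k else 1) = 1 := by
      apply Finset.prod_eq_one
      intro k _
      rw [if_neg]
      omega
    rw [this, mul_one]
  rw [Finset.sum_range_succ, h7, Finset.sum_congr rfl fun i hi => h1 i (Finset.mem_range.mp hi),
    Finset.sum_range_sub']
  have h8 : P 0 = 1 := by
    rw [hP]
    simp
  rw [h8]
  ring

/-- partial derivatives of the barycentric coordinates -/
theorem d2_lam_deriv (q i : ℕ) (a : Fin q) {u : Fin q → ℝ} (hu : u ∈ Set.Icc (0 : Fin q → ℝ) 1) :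
    ∃ d : ℝ, |d| ≤ 1 ∧ ∀ t, HasDerivAt (fun t => lam q i (Function.update u a t)) d t := by
  set B : ℝ := (∏ k ∈ Finset.univ.erase a, if (k : ℕ) < i then u k else 1) *
    (∏ k ∈ Finset.univ.erase a, if (k : ℕ) = i then 1 - u k else 1) with hB
  have hfac1 : ∀ k : Fin q, 0 ≤ (if (k : ℕ) < i then u k else 1) ∧
      (if (k : ℕ) < i then u k else 1) ≤ 1 := by
    intro k
    split_ifs
    · exact ⟨hu.1 k, hu.2 k⟩
    · exact ⟨zero_le_one, le_rfl⟩
  have hfac2 : ∀ k : Fin q, 0 ≤ (if (k : ℕ) = i then 1 - u k else 1) ∧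
      (if (k : ℕ) = i then 1 - u k else 1) ≤ 1 := by
    intro k
    have h1 := hu.1 k
    have h2 := hu.2 k
    simp only [Pi.zero_apply, Pi.one_apply] at h1 h2
    split_ifs
    · constructor <;> linarith
    · exact ⟨zero_le_one, le_rfl⟩
  have hB0 : 0 ≤ B := mul_nonneg (Finset.prod_nonneg fun k _ => (hfac1 k).1)
    (Finset.prod_nonneg fun k _ => (hfac2 k).1)
  have hB1 : B ≤ 1 := mul_le_one₀ (Finset.prod_le_one (fun k _ => (hfac1 k).1) fun k _ => (hfac1 k).2)
    (Finset.prod_nonneg fun k _ => (hfac2 k).1)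
    (Finset.prod_le_one (fun k _ => (hfac2 k).1) fun k _ => (hfac2 k).2)
  have hform : ∀ t, lam q i (Function.update u a t)
      = ((if (a : ℕ) < i then t else 1) * (if (a : ℕ) = i then 1 - t else 1)) * B := by
    intro t
    unfold lam
    rw [← Finset.mul_prod_erase Finset.univ _ (Finset.mem_univ a),
      ← Finset.mul_prod_erase Finset.univ (fun k : Fin q => if (k : ℕ) = i then
        1 - Function.update u a t k else 1) (Finset.mem_univ a), Function.update_self, hB]
    have h1 : ∀ k ∈ Finset.univ.erase a, Function.update u a t k = u k := by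
      intro k hk
      rw [Function.update_of_ne (Finset.ne_of_mem_erase hk)]
    have h2 : (∏ k ∈ Finset.univ.erase a, if (k : ℕ) < i then Function.update u a t k else 1)
        = ∏ k ∈ Finset.univ.erase a, if (k : ℕ) < i then u k else 1 :=
      Finset.prod_congr rfl fun k hk => by rw [h1 k hk]
    have h3 : (∏ k ∈ Finset.univ.erase a, if (k : ℕ) = i then 1 - Function.update u a t k else 1)
        = ∏ k ∈ Finset.univ.erase a, if (k : ℕ) = i then 1 - u k else 1 :=
      Finset.prod_congr rfl fun k hk => by rw [h1 k hk]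
    rw [h2, h3]
    ring
  refine ⟨(if (a : ℕ) < i then 1 else if (a : ℕ) = i then -1 else 0) * B, ?_, ?_⟩
  · rw [abs_mul, abs_of_nonneg hB0]
    apply mul_le_one₀ _ hB0 hB1
    split_ifs <;> simp
  · intro t
    simp only [hform]
    apply HasDerivAt.mul_const
    by_cases h1 : (a : ℕ) < i
    · have h2 : ¬ (a : ℕ) = i := by omega
      simp only [if_pos h1, if_neg h2, mul_one]
      exact hasDerivAt_id t
    · by_cases h2 : (a : ℕ) = i
      · simp only [if_neg h1, if_pos h2, one_mul]
        simpa using (hasDerivAt_id t).const_sub 1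
      · simp only [if_neg h1, if_neg h2, one_mul]
        exact hasDerivAt_const t 1

/-- combinations with coefficient sum zero are directions -/
theorem d2_VV {n : ℕ} (hn : 1 ≤ n) (q : ℕ) (d : ℕ → ℝ) (y : Sq) (hy : ∀ k, y k ∈ AA n)
    (hd : ∀ i ∈ Finset.range (q + 1), |d i| ≤ 1) (h0 : ∑ i ∈ Finset.range (q + 1), d i = 0) :
    (fun x => ∑ i ∈ Finset.range (q + 1), d i * y i x)
      ∈ VV n ((q + 1) * (1 + ∑ i ∈ Finset.range (q + 1), |y i 0|)) := by
  set B : ℝ := 1 + ∑ i ∈ Finset.range (q + 1), |y i 0| with hB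
  have hB1 : 1 ≤ B := by
    have : 0 ≤ ∑ i ∈ Finset.range (q + 1), |y i 0| := Finset.sum_nonneg fun i _ => abs_nonneg _
    linarith
  have hq0 : (0 : ℝ) < (q : ℝ) + 1 := by positivity
  set K : ℝ := (q + 1) * B with hK
  have hKq : (q : ℝ) + 1 ≤ K := by
    rw [hK]
    nlinarith
  have hK0 : 0 < K := by linarith
  set S : ℝ := ∑ i ∈ Finset.range (q + 1), max (d i) 0 with hS
  have hS' : ∑ i ∈ Finset.range (q + 1), max (-(d i)) 0 = S := by
    have h1 : ∑ i ∈ Finset.range (q + 1), (max (d i) 0 - max (-(d i)) 0)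
        = ∑ i ∈ Finset.range (q + 1), d i := by
      apply Finset.sum_congr rfl
      intro i _
      rcases le_total 0 (d i) with h | h
      · rw [max_eq_left h, max_eq_right (by linarith)]
        ring
      · rw [max_eq_right h, max_eq_left (by linarith)]
        ring
    rw [Finset.sum_sub_distrib, h0] at h1
    linarith
  have hSle : S ≤ (q : ℝ) + 1 := by
    have : S ≤ ∑ i ∈ Finset.range (q + 1), (1 : ℝ) := by
      apply Finset.sum_le_sum
      intro i hi
      exact max_le ((le_abs_self _).trans (hd i hi)) zero_le_one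
    simpa using this
  set e : ℝ := (K - S) / (q + 1) with he
  have he0 : 0 ≤ e := div_nonneg (by linarith) hq0.le
  have hcard : ∀ c : ℝ, ∑ _i ∈ Finset.range (q + 1), c = (q + 1) * c := by
    intro c
    rw [Finset.sum_const, Finset.card_range, nsmul_eq_mul]
    push_cast
    ring
  have hsum1 : ∀ f : ℕ → ℝ, ∑ i ∈ Finset.range (q + 1), f i = S →
      ∑ i ∈ Finset.range (q + 1), (f i + e) / K = 1 := by
    intro f hf
    rw [← Finset.sum_div, Finset.sum_add_distrib, hf, hcard, he]
    field_simp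
    ring
  have hv : ∀ x, ∑ i ∈ Finset.range (q + 1), d i * y i x
      = ∑ i ∈ Finset.range (q + 1), d i * (y i x - x) := by
    intro x
    simp only [mul_sub, Finset.sum_sub_distrib]
    rw [← Finset.sum_mul, h0, zero_mul, sub_zero]
  refine ⟨⟨fun x => ∑ i ∈ Finset.range (q + 1), (max (d i) 0 + e) / K * y i x, ?_,
    fun x => ∑ i ∈ Finset.range (q + 1), (max (-(d i)) 0 + e) / K * y i x, ?_, ?_⟩, ?_⟩
  · apply d2_conv hn
    · intro i _
      exact div_nonneg (add_nonneg (le_max_right _ _) he0) hK0.le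
    · exact hsum1 _ hS.symm
    · intro i _
      exact hy i
  · apply d2_conv hn
    · intro i _
      exact div_nonneg (add_nonneg (le_max_right _ _) he0) hK0.le
    · exact hsum1 _ hS'
    · intro i _
      exact hy i
  · funext x
    rw [← Finset.sum_sub_distrib, Finset.mul_sum]
    apply Finset.sum_congr rfl
    intro i _
    have h1 : max (d i) 0 - max (-(d i)) 0 = d i := by
      rcases le_total 0 (d i) with h | h
      · rw [max_eq_left h, max_eq_right (by linarith)]
        ring
      · rw [max_eq_right h, max_eq_left (by linarith)]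
        ring
    have h2 : K * ((max (d i) 0 + e) / K * y i x - (max (-(d i)) 0 + e) / K * y i x)
        = (max (d i) 0 - max (-(d i)) 0) * y i x := by
      field_simp
      ring
    rw [h2, h1]
  · intro x
    beta_reduce
    rw [hv x]
    calc |∑ i ∈ Finset.range (q + 1), d i * (y i x - x)|
        ≤ ∑ i ∈ Finset.range (q + 1), |d i * (y i x - x)| := Finset.abs_sum_le_sum_abs _ _
      _ ≤ ∑ _i ∈ Finset.range (q + 1), B := by
          apply Finset.sum_le_sum
          intro i hi
          rw [abs_mul]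
          have h3 := d2_osc (hy i).1 x
          have h4 : |y i x - x| ≤ B := by
            have h5 : |y i 0| ≤ ∑ i ∈ Finset.range (q + 1), |y i 0| :=
              Finset.single_le_sum (f := fun i => |y i 0|) (fun j _ => abs_nonneg _) hi
            have h6 : |y i x - x| ≤ |y i x - x - y i 0| + |y i 0| := by
              have := abs_add_le (y i x - x - y i 0) (y i 0)
              rwa [sub_add_cancel] at this
            linarith
          calc |d i| * |y i x - x| ≤ 1 * B := mul_le_mul (hd i hi) h4 (abs_nonneg _) zero_le_one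
            _ = B := one_mul _
      _ = K := hcard B

theorem st_D2 : ST_D2 := by
  refine ⟨fun n m hn hnm => d2_mono hn hnm, d2_exh, ?_, ?_, ?_, ?_, ?_, ?_⟩
  · intro n hn Φ hΦ Ψ hΨ t ht0 ht1
    have h := d2_conv hn (Finset.range 2) (fun i => if i = 0 then 1 - t else t)
      (fun i => if i = 0 then Φ else Ψ) ?_ ?_ ?_
    · simpa [Finset.sum_range_succ] using h
    · intro i _
      split_ifs <;> linarith
    · simp [Finset.sum_range_succ]
    · intro i _
      split_ifs
      · exact hΦ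
      · exact hΨ
  · intro n hn t
    exact d2_add_mem (d2_id_mem hn) t
  · intro n _ Φ hΦ t
    exact ⟨d2_add_mem hΦ t, d2_shift_mem hΦ t⟩
  · intro n _
    exact ⟨1, one_pos, fun Φ hΦ x => d2_osc hΦ.1 x⟩
  · intro n hn q y hy u hu
    unfold Phi
    exact d2_conv hn (Finset.range (q + 1)) (fun i => lam q i u) y
      (fun i _ => d2_lam_nonneg q i hu) (d2_lam_sum q u) (fun i _ => hy i)
  · intro n hn q y hy
    refine ⟨(q + 1) * (1 + ∑ i ∈ Finset.range (q + 1), |y i 0|), fun u hu a => ?_⟩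
    have hd : ∀ i, |dlam q i a u| ≤ 1 ∧
        HasDerivAt (fun t => lam q i (Function.update u a t)) (dlam q i a u) (u a) := by
      intro i
      obtain ⟨d, h1, h2⟩ := d2_lam_deriv q i a hu
      have h3 : dlam q i a u = d := (h2 (u a)).deriv
      rw [h3]
      exact ⟨h1, h2 (u a)⟩
    unfold dPhi
    apply d2_VV hn q (fun i => dlam q i a u) y hy (fun i _ => (hd i).1)
    have h4 : HasDerivAt (fun t => ∑ i ∈ Finset.range (q + 1), lam q i (Function.update u a t))
        (∑ i ∈ Finset.range (q + 1), dlam q i a u) (u a) :=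
      HasDerivAt.fun_sum fun i _ => (hd i).2
    have h5 : (fun t => ∑ i ∈ Finset.range (q + 1), lam q i (Function.update u a t))
        = fun _ => (1 : ℝ) := by
      funext t
      exact d2_lam_sum q _
    rw [h5] at h4
    exact h4.unique (hasDerivAt_const (u a) 1)

end Pool.Agent.Helper67.DO
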