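import Pool.Agent.Helper67.DO.StmtsE1

set_option autoImplicit false

/-!
# Module E3: Cartan formula
-/

namespace Pool.Agent.Helper67.DO

open scoped BigOperators Real

theorem e3_isOpen_PU {q : ℕ} {U : Set ℂ} (hU : IsOpen U) : IsOpen (PU q U) := by
  have h : PU q U = Set.pi Set.univ (fun _ : Fin q => U) := by
    ext z
    simp [PU]
  rw [h]
  exact isOpen_set_pi Set.finite_univ (fun _ _ => hU)

theorem e3_diff {q : ℕ} {U : Set ℂ} (hU : IsOpen U) {F : (Fin q → ℂ) → ℂ}
    (hF : DifferentiableOn ℂ F (PU q U)) {p : ℂ → Fin q → ℂ} {t : ℂ} (hp : Differentiable ℂ p)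
    (ht : p t ∈ PU q U) : DifferentiableAt ℂ (fun s => F (p s)) t := by
  have h1 : DifferentiableAt ℂ F (p t) := (hF (p t) ht).differentiableAt
    ((e3_isOpen_PU hU).mem_nhds ht)
  exact h1.comp t (hp t)

theorem e3_diff_insert {q : ℕ} (p : Fin (q + 1)) (z : Fin q → ℂ) :
    Differentiable ℂ (fun t : ℂ => (p.insertNth t z : Fin (q + 1) → ℂ)) := by
  rw [differentiable_pi]
  intro j
  rcases Fin.eq_self_or_eq_succAbove p j with h | ⟨k, h⟩
  · subst h
    simp
  · subst h
    simp

theorem e3_diff_update {q : ℕ} (j : Fin q) (z : Fin q → ℂ) :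
    Differentiable ℂ (fun t : ℂ => Function.update z j t) := by
  rw [differentiable_pi]
  intro k
  by_cases h : k = j
  · subst h
    simp
  · simp [Function.update_of_ne h]

theorem e3_fin1 {q : ℕ} (k : Fin (q + 1)) (i : Fin q) :
    ((k.succAbove i).succ.succAbove k).succAbove i.succ = (k.succAbove i).succ := by
  ext
  simp only [Fin.succAbove, Fin.lt_def]
  split_ifs <;> simp_all <;> omega

theorem e3_fin2 {q : ℕ} (k : Fin (q + 1)) (i j : Fin q) :
    ((k.succAbove i).succ.succAbove k).succAbove (i.succ.succAbove j)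
      = (k.succAbove i).succ.succAbove (k.succAbove j) := by
  ext
  simp only [Fin.succAbove, Fin.lt_def]
  split_ifs <;> simp_all <;> omega

theorem e3_insert {q : ℕ} (k : Fin (q + 1)) (i : Fin q) (t : ℂ) (z : Fin (q + 1) → ℂ) :
    (i.succ.insertNth t (k.removeNth z) : Fin (q + 1) → ℂ)
      = ((k.succAbove i).succ.succAbove k).removeNth
        ((k.succAbove i).succ.insertNth t z : Fin (q + 2) → ℂ) := by
  rw [Fin.insertNth_eq_iff]
  constructor
  · unfold Fin.removeNth
    rw [e3_fin1]
    simp
  · funext j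
    unfold Fin.removeNth
    rw [e3_fin2]
    simp

theorem e3_sign {q : ℕ} (k : Fin (q + 1)) (i : Fin q) :
    (-1 : ℂ) ^ ((k.succAbove i : Fin (q + 1)) : ℕ) *
        (-1 : ℂ) ^ (((k.succAbove i).succ.succAbove k : Fin (q + 2)) : ℕ)
      = -((-1 : ℂ) ^ (k : ℕ) * (-1 : ℂ) ^ (i : ℕ)) := by
  rcases lt_or_ge i.castSucc k with h | h
  · have h1 : ((k.succAbove i : Fin (q + 1)) : ℕ) = i := by
      rw [Fin.succAbove_of_castSucc_lt _ _ h]
      simp
    have h2 : (((k.succAbove i).succ.succAbove k : Fin (q + 2)) : ℕ) = k + 1 := by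
      rw [Fin.succAbove_of_le_castSucc]
      · simp
      · rw [Fin.le_def]
        simp only [Fin.val_succ, Fin.val_castSucc]
        rw [h1]
        exact h
    rw [h1, h2, pow_succ]
    ring
  · have h1 : ((k.succAbove i : Fin (q + 1)) : ℕ) = i + 1 := by
      rw [Fin.succAbove_of_le_castSucc _ _ h]
      simp
    have h2 : (((k.succAbove i).succ.succAbove k : Fin (q + 2)) : ℕ) = k := by
      rw [Fin.succAbove_of_castSucc_lt]
      · simp
      · rw [Fin.lt_def]
        simp only [Fin.val_succ, Fin.val_castSucc]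
        rw [h1]
        have : (k : ℕ) ≤ i := h
        omega
    rw [h1, h2, pow_succ]
    ring

theorem e3_self {q : ℕ} (i : Fin (q + 1)) (t : ℂ) (z : Fin (q + 1) → ℂ) :
    (i.succ.succAbove i).removeNth (i.succ.insertNth t z : Fin (q + 2) → ℂ)
      = Function.update z i t := by
  have h0 : i.succ.succAbove i = i.castSucc := by
    apply Fin.succAbove_of_castSucc_lt
    exact Fin.castSucc_lt_succ
  rw [h0]
  funext j
  unfold Fin.removeNth
  rcases lt_trichotomy j i with h | h | h
  · rw [Function.update_of_ne h.ne]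
    have h1 : i.castSucc.succAbove j = i.succ.succAbove j := by
      ext
      have : (j : ℕ) < i := h
      simp only [Fin.succAbove, Fin.lt_def]
      split_ifs <;> simp_all <;> omega
    rw [h1, Fin.insertNth_apply_succAbove]
  · subst h
    rw [Function.update_self]
    have h1 : j.castSucc.succAbove j = j.succ := by
      simp
    rw [h1, Fin.insertNth_apply_same]
  · rw [Function.update_of_ne h.ne']
    have h1 : i.castSucc.succAbove j = i.succ.succAbove j := by
      ext
      have : (i : ℕ) < j := h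
      simp only [Fin.succAbove, Fin.lt_def]
      split_ifs <;> simp_all <;> omega
    rw [h1, Fin.insertNth_apply_succAbove]

theorem e3_deriv {q : ℕ} {U : Set ℂ} {a : ℂ → ℂ} (hU : IsOpen U) (ha : DifferentiableOn ℂ a U)
    {F : (Fin (q + 1) → ℂ) → ℂ} (hF : DifferentiableOn ℂ F (PU (q + 1) U))
    {z : Fin (q + 1) → ℂ} (hz : z ∈ PU (q + 1) U) (i : Fin (q + 1)) :
    deriv (fun t : ℂ => wd a (q + 1) F (i.succ.insertNth t z)) (z i)
      = -((-1 : ℂ) ^ (i : ℕ) * (deriv a (z i) * F z))
        + (-1 : ℂ) ^ (i : ℕ) * (a (z i) * deriv (fun t : ℂ => F (Function.update z i t)) (z i))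
        + ∑ m : Fin (q + 1), if m = i then 0 else
          (-1 : ℂ) ^ ((i.succ.succAbove m : Fin (q + 2)) : ℕ) * (a (z m) *
            deriv (fun t : ℂ => F ((i.succ.succAbove m).removeNth
              (i.succ.insertNth t z : Fin (q + 2) → ℂ))) (z i)) := by
  have h1 : ∀ t : ℂ, wd a (q + 1) F (i.succ.insertNth t z)
      = -((-1 : ℂ) ^ (i : ℕ)) * F z * a t + ∑ m : Fin (q + 1),
        ((-1 : ℂ) ^ ((i.succ.succAbove m : Fin (q + 2)) : ℕ) * a (z m)) *
          F ((i.succ.succAbove m).removeNth (i.succ.insertNth t z : Fin (q + 2) → ℂ)) := by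
    intro t
    unfold wd
    rw [Fin.sum_univ_succAbove _ i.succ]
    congr 1
    · rw [Fin.insertNth_apply_same, Fin.removeNth_insertNth, Fin.val_succ, pow_succ]
      ring
    · apply Finset.sum_congr rfl
      intro m _
      rw [Fin.insertNth_apply_succAbove]
  have hda : HasDerivAt a (deriv a (z i)) (z i) :=
    ((ha (z i) (hz i)).differentiableAt (hU.mem_nhds (hz i))).hasDerivAt
  have hd2 : ∀ m : Fin (q + 1), HasDerivAt
      (fun t : ℂ => F ((i.succ.succAbove m).removeNth (i.succ.insertNth t z : Fin (q + 2) → ℂ)))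
      (deriv (fun t : ℂ => F ((i.succ.succAbove m).removeNth
        (i.succ.insertNth t z : Fin (q + 2) → ℂ))) (z i)) (z i) := by
    intro m
    apply DifferentiableAt.hasDerivAt
    apply e3_diff hU hF (p := fun t : ℂ => (i.succ.succAbove m).removeNth
        (i.succ.insertNth t z : Fin (q + 2) → ℂ))
    · rw [differentiable_pi]
      intro j
      exact (differentiable_pi.mp (e3_diff_insert i.succ z)) ((i.succ.succAbove m).succAbove j)
    · intro j
      unfold Fin.removeNth
      rcases Fin.eq_self_or_eq_succAbove i.succ ((i.succ.succAbove m).succAbove j) with h | ⟨k, h⟩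
      · rw [h, Fin.insertNth_apply_same]
        exact hz i
      · rw [h, Fin.insertNth_apply_succAbove]
        exact hz k
  have h2 : HasDerivAt (fun t : ℂ => wd a (q + 1) F (i.succ.insertNth t z))
      (-((-1 : ℂ) ^ (i : ℕ)) * F z * deriv a (z i) + ∑ m : Fin (q + 1),
        ((-1 : ℂ) ^ ((i.succ.succAbove m : Fin (q + 2)) : ℕ) * a (z m)) *
          deriv (fun t : ℂ => F ((i.succ.succAbove m).removeNth
            (i.succ.insertNth t z : Fin (q + 2) → ℂ))) (z i)) (z i) := by
    have h3 : (fun t : ℂ => wd a (q + 1) F (i.succ.insertNth t z)) = fun t : ℂ =>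
        -((-1 : ℂ) ^ (i : ℕ)) * F z * a t + ∑ m : Fin (q + 1),
        ((-1 : ℂ) ^ ((i.succ.succAbove m : Fin (q + 2)) : ℕ) * a (z m)) *
          F ((i.succ.succAbove m).removeNth (i.succ.insertNth t z : Fin (q + 2) → ℂ)) :=
      funext h1
    rw [h3]
    apply HasDerivAt.add (hda.const_mul _)
    exact HasDerivAt.fun_sum fun m _ => (hd2 m).const_mul _
  refine h2.deriv.trans ?_
  rw [add_assoc (-((-1 : ℂ) ^ (i : ℕ) * (deriv a (z i) * F z)))]
  congr 1
  · ring
  · have h4 : ∀ m : Fin (q + 1), ((-1 : ℂ) ^ ((i.succ.succAbove m : Fin (q + 2)) : ℕ) * a (z m)) *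
          deriv (fun t : ℂ => F ((i.succ.succAbove m).removeNth
            (i.succ.insertNth t z : Fin (q + 2) → ℂ))) (z i)
        = (if m = i then (-1 : ℂ) ^ (i : ℕ) *
            (a (z i) * deriv (fun t : ℂ => F (Function.update z i t)) (z i)) else 0)
          + if m = i then 0 else
          (-1 : ℂ) ^ ((i.succ.succAbove m : Fin (q + 2)) : ℕ) * (a (z m) *
            deriv (fun t : ℂ => F ((i.succ.succAbove m).removeNth
              (i.succ.insertNth t z : Fin (q + 2) → ℂ))) (z i)) := by
      intro m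
      by_cases hm : m = i
      · subst hm
        rw [if_pos rfl, if_pos rfl, add_zero]
        have h5 : (fun t : ℂ => F ((m.succ.succAbove m).removeNth
            (m.succ.insertNth t z : Fin (q + 2) → ℂ)))
            = fun t : ℂ => F (Function.update z m t) := by
          funext t
          rw [e3_self]
        have h6 : ((m.succ.succAbove m : Fin (q + 2)) : ℕ) = m := by
          rw [Fin.succAbove_of_castSucc_lt _ _ Fin.castSucc_lt_succ]
          simp
        rw [h5, h6]
        ring
      · rw [if_neg hm, if_neg hm, zero_add]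
        ring
    rw [Finset.sum_congr rfl fun m _ => h4 m, Finset.sum_add_distrib]
    congr 1
    rw [Finset.sum_ite_eq' Finset.univ i, if_pos (Finset.mem_univ i)]

theorem st_E3 : ST_E3 := by
  intro q U a hU _ ha F hF z hz
  set R : Fin (q + 1) → Fin (q + 1) → ℂ := fun i m => (-1 : ℂ) ^ (i : ℕ) *
    ((-1 : ℂ) ^ ((i.succ.succAbove m : Fin (q + 2)) : ℕ) * (a (z m) *
            deriv (fun t : ℂ => F ((i.succ.succAbove m).removeNth
              (i.succ.insertNth t z : Fin (q + 2) → ℂ))) (z i))) with hR
  have h1 : dd (q + 1) (wd a (q + 1) F) z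
      = ∑ i : Fin (q + 1), (a (z i) * deriv (fun t => F (Function.update z i t)) (z i)
          - deriv a (z i) * F z)
        + ∑ i : Fin (q + 1), ∑ m : Fin (q + 1), if m = i then 0 else R i m := by
    unfold dd
    rw [← Finset.sum_add_distrib]
    apply Finset.sum_congr rfl
    intro i _
    rw [e3_deriv hU ha hF.hol hz i, mul_add, mul_add, Finset.mul_sum]
    have h2 : (-1 : ℂ) ^ (i : ℕ) * (-1 : ℂ) ^ (i : ℕ) = 1 := by
      rw [← mul_pow]
      simp
    congr 1
    · linear_combination (a (z i) * deriv (fun t => F (Function.update z i t)) (z i)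
          - deriv a (z i) * F z) * h2
    · apply Finset.sum_congr rfl
      intro m _
      split_ifs
      · rw [mul_zero]
      · rfl
  have h3 : wd a q (dd q F) z
      = ∑ k : Fin (q + 1), ∑ i : Fin (q + 1), if k = i then 0 else -R i k := by
    unfold wd
    apply Finset.sum_congr rfl
    intro k _
    rw [Fin.sum_univ_succAbove _ k, if_pos rfl, zero_add]
    unfold dd
    rw [Finset.mul_sum]
    apply Finset.sum_congr rfl
    intro i _
    rw [if_neg (Fin.succAbove_ne k i).symm, hR]
    have h4 : (fun t : ℂ => F (i.succ.insertNth t (k.removeNth z)))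
        = fun t : ℂ => F (((k.succAbove i).succ.succAbove k).removeNth
          ((k.succAbove i).succ.insertNth t z : Fin (q + 2) → ℂ)) := by
      funext t
      rw [e3_insert]
    have h5 := e3_sign k i
    have h6 : (k.removeNth z) i = z (k.succAbove i) := rfl
    rw [h4, h6]
    beta_reduce
    linear_combination (a (z k) * deriv (fun t : ℂ =>
      F (((k.succAbove i).succ.succAbove k).removeNth
        ((k.succAbove i).succ.insertNth t z : Fin (q + 2) → ℂ))) (z (k.succAbove i))) * h5
  have h7 : (∑ k : Fin (q + 1), ∑ i : Fin (q + 1), if k = i then (0 : ℂ) else -R i k)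
      = -∑ i : Fin (q + 1), ∑ m : Fin (q + 1), if m = i then (0 : ℂ) else R i m := by
    rw [Finset.sum_comm, ← Finset.sum_neg_distrib]
    apply Finset.sum_congr rfl
    intro i _
    rw [← Finset.sum_neg_distrib]
    apply Finset.sum_congr rfl
    intro m _
    split_ifs
    · rw [neg_zero]
    · rfl
  rw [h1, h3, h7]
  ring

end Pool.Agent.Helper67.DO
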