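import Pool.Agent.Helper67.DO.BaseE

set_option autoImplicit false

/-!
# Module X4b: decomposition of cocycles modulo sums (degree at least three)
-/

namespace Pool.Agent.Helper67.DO

open scoped BigOperators Real

/-- composition of a functional with a bounded linear operator -/
theorem x4b_comp {q q' : ℕ} {U U' : Set ℂ} {δ : ((Fin q' → ℂ) → ℂ) → ℂ} (hδ : Fnl q' U' δ)
    (Op : ((Fin q → ℂ) → ℂ) → ((Fin q' → ℂ) → ℂ)) (h1 : ∀ F, BO q U F → BO q' U' (Op F))
    (h2 : ∀ F G (c : ℂ), BO q U F → BO q U G → ∀ z ∈ PU q' U',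
      Op (fun x => c * F x + G x) z = c * Op F z + Op G z)
    (h3 : ∃ C : ℝ, ∀ F, BO q U F → ∀ B : ℝ, 0 ≤ B → (∀ z ∈ PU q U, ‖F z‖ ≤ B) →
      ∀ z ∈ PU q' U', ‖Op F z‖ ≤ C * B) : Fnl q U (fun F => δ (Op F)) := by
  have hlin : ∀ F G (c : ℂ), BO q U F → BO q U G →
      δ (Op (fun x => c * F x + G x)) = c * δ (Op F) + δ (Op G) := by
    intro F G c hF hG
    have e1 : δ (Op (fun x => c * F x + G x)) = δ (fun z => c * Op F z + Op G z) :=
      hδ.ext' (h1 _ ((hF.smul c).add hG)) (((h1 F hF).smul c).add (h1 G hG)) (h2 F G c hF hG)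
    rw [e1, hδ.add (fun z => c * Op F z) (Op G) ((h1 F hF).smul c) (h1 G hG),
      hδ.smul c (Op F) (h1 F hF)]
  have hzero : δ (Op (fun _ => 0)) = 0 := by
    have e := hlin (fun _ => 0) (fun _ => 0) 1 (BO.zero q U) (BO.zero q U)
    simp only [mul_zero, add_zero, one_mul] at e
    have e2 : δ (Op fun _ => 0) + δ (Op fun _ => 0) = δ (Op fun _ => 0) := e.symm
    exact left_eq_add.mp e2.symm
  refine ⟨fun F G hF hG => ?_, fun c F hF => ?_, ?_⟩
  · have e := hlin F G 1 hF hG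
    simp only [one_mul] at e
    exact e
  · have e := hlin F (fun _ => 0) c hF (BO.zero q U)
    rw [hzero] at e
    simp only [add_zero] at e
    exact e
  · obtain ⟨C, hC⟩ := h3
    obtain ⟨D, hD, H⟩ := hδ.bdd
    refine ⟨D * max C 0, by positivity, fun F hF M hM hM0 => ?_⟩
    have e1 : ∀ z ∈ PU q' U', ‖Op F z‖ ≤ max C 0 * M := fun z hz =>
      (hC F hF M hM0 hM z hz).trans (mul_le_mul_of_nonneg_right (le_max_left _ _) hM0)
    have e2 := H (Op F) (h1 F hF) (max C 0 * M) e1 (by positivity)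
    calc ‖δ (Op F)‖ ≤ D * (max C 0 * M) := e2
      _ = D * max C 0 * M := by ring

/-- composition of a sum of functionals with an operator which is compatible with all slits -/
theorem x4b_sumX {N m q q' : ℕ} {P P' G G' : Set ℤ} {w h : ℝ} {α : ((Fin q' → ℂ) → ℂ) → ℂ}
    (hα : SumX N m q' P' G' w h α)
    (Op : ((Fin q → ℂ) → ℂ) → ((Fin q' → ℂ) → ℂ))
    (hF : ∀ i < m, ∀ δ, Fnl q' (US N (P' ∪ pcl N {(i : ℤ)}) G' w h) δ →
      Fnl q (US N (P ∪ pcl N {(i : ℤ)}) G w h) (fun F => δ (Op F)))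
    (hB : ∀ w1 h1 : ℝ, 0 < w1 → w1 < w → h < h1 → ∀ F, BO q (US N P G w1 h1) F →
      BO q' (US N P' G' w1 h1) (Op F)) :
    SumX N m q P G w h (fun F => α (Op F)) := by
  obtain ⟨β, k1, k2⟩ := hα
  exact ⟨fun i F => β i (Op F), fun i hi => hF i hi _ (k1 i hi),
    fun w1 h1 a b c F hF' => k2 w1 h1 a b c _ (hB w1 h1 a b c F hF')⟩

theorem x4b_ext0_lin (b0 e0 : ℝ) {q : ℕ} (F G : (Fin q → ℂ) → ℂ) (c : ℂ) (z : Fin q → ℂ) :
    ext0 b0 e0 (fun x => c * F x + G x) z = c * ext0 b0 e0 F z + ext0 b0 e0 G z := by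
  unfold ext0
  split_ifs
  · rfl
  · ring

theorem x4b_wd_lin (a : ℂ → ℂ) (q : ℕ) (F G : (Fin q → ℂ) → ℂ) (c : ℂ) :
    wd a q (fun x => c * F x + G x) = fun z => c * wd a q F z + wd a q G z := by
  funext z
  unfold wd
  rw [Finset.mul_sum, ← Finset.sum_add_distrib]
  apply Finset.sum_congr rfl
  intro i _
  ring

theorem x4b_uw_lin (b0 e0 y : ℝ) (n : ℕ) (F G : (Fin n → ℂ) → ℂ) (c : ℂ) (z : Fin (n + 3) → ℂ) :
    uw b0 e0 y n (fun x => c * F x + G x) z = c * uw b0 e0 y n F z + uw b0 e0 y n G z := by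
  unfold uw
  have h0 : ext0 b0 e0 (fun x => c * F x + G x)
      = fun z => c * ext0 b0 e0 F z + ext0 b0 e0 G z := funext fun z => x4b_ext0_lin b0 e0 F G c z
  rw [h0, x4b_wd_lin, x4b_wd_lin, x4b_wd_lin]

theorem x4b_ext0_bound {b0 e0 w h : ℝ} (hw : 0 ≤ w) {V : Set ℂ} {q : ℕ} {G : (Fin q → ℂ) → ℂ}
    {B : ℝ} (hB : ∀ z ∈ PU q V, ‖G z‖ ≤ B) (hB0 : 0 ≤ B) (z : Fin q → ℂ)
    (hz : z ∈ PU q (V ∪ RR b0 e0 w h)) : ‖ext0 b0 e0 G z‖ ≤ B := by
  unfold ext0
  split_ifs with h1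
  · apply hB
    intro j
    rcases hz j with h2 | h2
    · exact h2
    · exfalso
      apply h1 j
      obtain ⟨_, k, hk1, hk2⟩ := h2
      exact ⟨k, by linarith, by linarith⟩
  · simpa using hB0

/-- the geometric data -/
structure x4b_Geo (N k : ℕ) (b m e : ℤ) : Prop where
  N0 : 0 < N
  b0 : b < 0
  km : (k : ℤ) ≤ m
  me : m < e
  eb : e ≤ b + N

theorem x4b_Geo.num {N k : ℕ} {b m e : ℤ} (g : x4b_Geo N k b m e) {w : ℝ} (hw : w < 1 / (4 * N)) :
    (m : ℝ) / N + w < yy N m ∧ yy N m < (e : ℝ) / N - w ∧ (e : ℝ) / N ≤ (m : ℝ) / N + 1 := by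
  have hN : (0 : ℝ) < N := by exact_mod_cast g.N0
  have hme : (m : ℝ) + 1 ≤ e := by exact_mod_cast g.me
  have hw2 : w * N < 1 / 4 := by
    rw [lt_div_iff₀ (by positivity)] at hw
    linarith
  have h2 : (e : ℝ) ≤ m + N := by
    have h1 : e ≤ m + N := by
      have := g.eb
      have := g.b0
      have := g.km
      omega
    exact_mod_cast h1
  unfold yy
  refine ⟨?_, ?_, ?_⟩
  · rw [div_add' _ _ _ hN.ne', div_lt_div_iff_of_pos_right hN]
    linarith
  · rw [div_sub' hN.ne', div_lt_div_iff_of_pos_right hN]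
    linarith
  · rw [div_add_one hN.ne', div_le_div_iff_of_pos_right hN]
    exact h2

theorem x4b_Geo.dec {N k : ℕ} {b m e : ℤ} (g : x4b_Geo N k b m e) (hX3 : ST_X3) {w h : ℝ}
    (hw0 : 0 < w) (hw : w < 1 / (4 * N)) (hh : 0 < h) (I : Set ℤ) (hI : ∀ i ∈ I, b < i ∧ i < m) :
    US N (PI N b e ({m} ∪ I)) (GI N b e) w h
        = US N (PI N b m I) (GI N b m) w h ∪ RR (m / N) (e / N) w h ∧
    (∀ z ∈ US N (PI N b m I) (GI N b m) w h, ¬ InR (m / N) (e / N) z) ∧
    IsOpen (US N (PI N b m I) (GI N b m) w h) ∧ Per (US N (PI N b m I) (GI N b m) w h) := by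
  have hbm : b < m := by
    have := g.b0
    have := g.km
    omega
  obtain ⟨h1, h2, _, h4, h5⟩ := hX3 N b m e I w h g.N0 hbm g.me g.eb hI hw0 hw hh
  exact ⟨h1, h2, h4, h5⟩

theorem x4b_slit {N k : ℕ} {b m e : ℤ} (g : x4b_Geo N k b m e) {i : ℕ} (hi : i < k) :
    ∀ j ∈ ({(i : ℤ)} : Set ℤ), b < j ∧ j < m := by
  intro j hj
  rw [Set.mem_singleton_iff] at hj
  subst hj
  have h1 := g.b0
  have h2 := g.km
  constructor <;> omega

theorem x4b_PIe (N : ℕ) (b e m : ℤ) (i : ℤ) :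
    PI N b e {m} ∪ pcl N {i} = PI N b e ({m} ∪ {i}) := PI_union N b e {m} {i}

theorem x4b_PIm (N : ℕ) (b m : ℤ) (i : ℤ) :
    PI N b m ∅ ∪ pcl N {i} = PI N b m {i} := by
  rw [PI_union, Set.empty_union]

theorem x4b_PI0 (N : ℕ) (b e m : ℤ) : PI N b e {m} = PI N b e ({m} ∪ ∅) := by
  rw [Set.union_empty]

theorem st_X4b (hE1 : ST_E1) (hX1 : ST_X1) (hX2 : ST_X2) (hX3 : ST_X3) : ST_X4b := by
  intro N k n b m e hN hb hkm hme heb
  have g : x4b_Geo N k b m e := ⟨hN, hb, hkm, hme, heb⟩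
  apply Loss.of
  intro w' h' w h hw'0 hw'w hw hh hhh α hα hc
  have hw0 : 0 < w := by linarith
  have hb0y := (g.num (w := 0) (by positivity)).1
  have hye0 := (g.num (w := 0) (by positivity)).2.1
  have he0 := (g.num (w := 0) (by positivity)).2.2
  rw [add_zero] at hb0y
  rw [sub_zero] at hye0
  obtain ⟨hop, hhop⟩ := hX1 (m / N) (yy N m) (e / N) hb0y hye0 he0
  -- the facts on the operators at level `(w1, h1)` with slits `I`
  have X1 : ∀ (w1 h1 : ℝ) (I : Set ℤ), 0 < w1 → w1 < 1 / (4 * N) → 0 < h1 →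
      (∀ i ∈ I, b < i ∧ i < m) → _ := fun w1 h1 I a1 a2 a3 a4 =>
    hhop w1 h1 a1.le a3 (g.num a2).1 (g.num a2).2.1 _ (g.dec hX3 a1 a2 a3 I a4).2.2.1
      (g.dec hX3 a1 a2 a3 I a4).2.2.2 (g.dec hX3 a1 a2 a3 I a4).2.1
  have X2 : ∀ (w1 h1 : ℝ) (I : Set ℤ), 0 < w1 → w1 < 1 / (4 * N) → 0 < h1 →
      (∀ i ∈ I, b < i ∧ i < m) → _ := fun w1 h1 I a1 a2 a3 a4 =>
    hX2 (m / N) (yy N m) (e / N) (e / N) w1 h1 (g.num a2).1 (g.num a2).2.1 le_rfl he0 a1.le a3 _
      (g.dec hX3 a1 a2 a3 I a4).2.2.1 (g.dec hX3 a1 a2 a3 I a4).2.2.2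
      (g.dec hX3 a1 a2 a3 I a4).2.1
  have hemp : ∀ i ∈ (∅ : Set ℤ), b < i ∧ i < m := fun i hi => absurd hi (Set.notMem_empty i)
  have dec0 : ∀ (w1 h1 : ℝ), 0 < w1 → w1 < 1 / (4 * N) → 0 < h1 →
      US N (PI N b e {m}) (GI N b e) w1 h1
        = US N (PI N b m ∅) (GI N b m) w1 h1 ∪ RR (m / N) (e / N) w1 h1 := by
    intro w1 h1 a1 a2 a3
    rw [x4b_PI0]
    exact (g.dec hX3 a1 a2 a3 ∅ hemp).1
  have deci : ∀ (w1 h1 : ℝ) (i : ℕ), i < k → 0 < w1 → w1 < 1 / (4 * N) → 0 < h1 →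
      US N (PI N b e {m} ∪ pcl N {(i : ℤ)}) (GI N b e) w1 h1
        = US N (PI N b m {(i : ℤ)}) (GI N b m) w1 h1 ∪ RR (m / N) (e / N) w1 h1 := by
    intro w1 h1 i hi a1 a2 a3
    rw [x4b_PIe]
    exact (g.dec hX3 a1 a2 a3 _ (x4b_slit g hi)).1
  have hsV : Shape N (PI N b m ∅) (GI N b m) := Shape_PI N b m ∅
  have hsU : Shape N (PI N b e {m}) (GI N b e) := Shape_PI N b e {m}
  -- composition of functionals with the three operators
  have FH : ∀ (w1 h1 : ℝ) (I : Set ℤ), 0 < w1 → w1 < 1 / (4 * N) → 0 < h1 →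
      (∀ i ∈ I, b < i ∧ i < m) → ∀ (q : ℕ) (δ : ((Fin (q + 1) → ℂ) → ℂ) → ℂ),
      Fnl (q + 1) (US N (PI N b m I) (GI N b m) w1 h1 ∪ RR (m / N) (e / N) w1 h1) δ →
      Fnl q (US N (PI N b m I) (GI N b m) w1 h1 ∪ RR (m / N) (e / N) w1 h1)
        (fun F => δ (hop q F)) := by
    intro w1 h1 I a1 a2 a3 a4 q δ hδ
    obtain ⟨p1, ⟨C, p2⟩, p3, _⟩ := X1 w1 h1 I a1 a2 a3 a4
    exact x4b_comp hδ (hop q) (p1 q) (fun F G c hF hG z hz => p3 q F G c hF hG z hz)
      ⟨C q, fun F hF B _ hB z hz => p2 q F hF B hB z hz⟩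
  have FE : ∀ (w1 h1 : ℝ) (I : Set ℤ), 0 < w1 → w1 < 1 / (4 * N) → 0 < h1 →
      (∀ i ∈ I, b < i ∧ i < m) → ∀ (q : ℕ) (δ : ((Fin q → ℂ) → ℂ) → ℂ),
      Fnl q (US N (PI N b m I) (GI N b m) w1 h1 ∪ RR (m / N) (e / N) w1 h1) δ →
      Fnl q (US N (PI N b m I) (GI N b m) w1 h1) (fun F => δ (ext0 (m / N) (e / N) F)) := by
    intro w1 h1 I a1 a2 a3 a4 q δ hδ
    obtain ⟨_, _, _, p4, _⟩ := X2 w1 h1 I a1 a2 a3 a4
    refine x4b_comp hδ (ext0 (m / N) (e / N)) (p4 q)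
      (fun F G c _ _ z _ => x4b_ext0_lin _ _ F G c z) ⟨1, fun F _ B hB0 hB z hz => ?_⟩
    rw [one_mul]
    exact x4b_ext0_bound a1.le hB hB0 z hz
  have FW : ∀ (w1 h1 : ℝ) (I : Set ℤ), 0 < w1 → w1 < 1 / (4 * N) → 0 < h1 →
      (∀ i ∈ I, b < i ∧ i < m) → ∀ (q : ℕ) (δ : ((Fin (q + 3) → ℂ) → ℂ) → ℂ),
      Fnl (q + 3) (US N (PI N b m I) (GI N b m) w1 h1 ∪ RR (m / N) (e / N) w1 h1) δ →
      Fnl q (US N (PI N b m I) (GI N b m) w1 h1)
        (fun F => δ (uw (m / N) (e / N) (yy N m) q F)) := by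
    intro w1 h1 I a1 a2 a3 a4 q δ hδ
    obtain ⟨_, _, _, _, _, p6, p7, _⟩ := X2 w1 h1 I a1 a2 a3 a4
    obtain ⟨C, hC⟩ := p7 q
    exact x4b_comp hδ (uw (m / N) (e / N) (yy N m) q) (p6 q)
      (fun F G c _ _ z _ => x4b_uw_lin _ _ _ q F G c z) ⟨C, fun F hF B _ hB z hz => hC F hF B hB z hz⟩
  -- the functional in the slit domains
  have slit : ∀ (i : ℕ), i < k → ∀ (q : ℕ) (δ : ((Fin q → ℂ) → ℂ) → ℂ),
      Fnl q (US N (PI N b e {m} ∪ pcl N {(i : ℤ)}) (GI N b e) w h) δ →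
      Fnl q (US N (PI N b m {(i : ℤ)}) (GI N b m) w h ∪ RR (m / N) (e / N) w h) δ := by
    intro i hi q δ hδ
    rw [← deci w h i hi hw0 hw hh]
    exact hδ
  have hα' : Fnl (n + 3) (US N (PI N b m ∅) (GI N b m) w h ∪ RR (m / N) (e / N) w h) α := by
    rw [← dec0 w h hw0 hw hh]
    exact hα
  -- facts at the level `(w, h)`
  obtain ⟨p1, _, _, p4⟩ := X1 w h ∅ hw0 hw hh hemp
  obtain ⟨_, _, _, q4, q5, q6, _, q8, _, q10, _, _⟩ := X2 w h ∅ hw0 hw hh hemp
  have hU : US N (PI N b e {m}) (GI N b e) w h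
      = US N (PI N b m ∅) (GI N b m) w h ∪ RR (m / N) (e / N) w h := dec0 w h hw0 hw hh
  refine ⟨fun F => α (ext0 (m / N) (e / N) F),
    fun G => α (uw (m / N) (e / N) (yy N m) n G), ?_, ?_, ?_, ?_, ?_⟩
  · exact (FE w h ∅ hw0 hw hh hemp (n + 3) α hα').mono' (US_mono le_rfl le_rfl hw'w.le hhh.le)
  · -- `β0` is a cocycle
    have e1 : SumX N k (n + 4) (PI N b m ∅) (GI N b m) w h
        (fun F => α (dd (n + 3) (ext0 (m / N) (e / N) F))) := by
      refine x4b_sumX (P := PI N b m ∅) (G := GI N b m) hc (ext0 (m / N) (e / N)) ?_ ?_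
      · intro i hi δ hδ
        rw [x4b_PIm]
        exact FE w h _ hw0 hw hh (x4b_slit g hi) (n + 4) δ (slit i hi _ δ hδ)
      · intro w1 h1 a1 a2 a3 F hF
        have a2' : w1 < 1 / (4 * N) := a2.trans hw
        have a3' : 0 < h1 := hh.trans a3
        obtain ⟨_, _, _, r4, _⟩ := X2 w1 h1 ∅ a1 a2' a3' hemp
        rw [dec0 w1 h1 a1 a2' a3']
        exact r4 _ F hF
    have e2 : SumX N k (n + 4) (PI N b m ∅) (GI N b m) w h
        (fun F => α (ext0 (m / N) (e / N) (dd (n + 3) F))) := by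
      refine e1.congr fun w1 h1 a1 a2 a3 F hF => ?_
      have a2' : w1 < 1 / (4 * N) := a2.trans hw
      have a3' : 0 < h1 := hh.trans a3
      obtain ⟨_, _, _, r4, _⟩ := X2 w1 h1 ∅ a1 a2' a3' hemp
      have b1 : BO (n + 3) (US N (PI N b m ∅) (GI N b m) w h) (dd (n + 3) F) :=
        dd_BO hE1 hN hsV a1.le a2 a3 hF
      have b2 : BO (n + 4) (US N (PI N b e {m}) (GI N b e) w1 h1) (ext0 (m / N) (e / N) F) := by
        rw [dec0 w1 h1 a1 a2' a3']
        exact r4 _ F hF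
      have b3 : BO (n + 3) (US N (PI N b e {m}) (GI N b e) w h)
          (dd (n + 3) (ext0 (m / N) (e / N) F)) := dd_BO hE1 hN hsU a1.le a2 a3 b2
      have b4 : BO (n + 3) (US N (PI N b e {m}) (GI N b e) w h)
          (ext0 (m / N) (e / N) (dd (n + 3) F)) := by
        rw [hU]
        exact q4 _ _ b1
      refine hα.ext' b4 b3 fun z hz => ?_
      rw [hU] at hz
      exact (q5 (n + 3) F (hF.mono (US_mono le_rfl le_rfl a2.le a3.le)) z hz).symm
    exact SumX.mono e2 le_rfl le_rfl le_rfl hw'w.le hhh.le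
  · exact (FW w h ∅ hw0 hw hh hemp n α hα').mono' (US_mono le_rfl le_rfl hw'w.le hhh.le)
  · -- `β3` is a cocycle
    have e1 : SumX N k (n + 1) (PI N b m ∅) (GI N b m) w h
        (fun F => α (dd (n + 3) (uw (m / N) (e / N) (yy N m) (n + 1) F))) := by
      refine x4b_sumX (P := PI N b m ∅) (G := GI N b m) hc (uw (m / N) (e / N) (yy N m) (n + 1))
        ?_ ?_
      · intro i hi δ hδ
        rw [x4b_PIm]
        exact FW w h _ hw0 hw hh (x4b_slit g hi) (n + 1) δ (slit i hi _ δ hδ)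
      · intro w1 h1 a1 a2 a3 F hF
        have a2' : w1 < 1 / (4 * N) := a2.trans hw
        have a3' : 0 < h1 := hh.trans a3
        obtain ⟨_, _, _, _, _, r6, _⟩ := X2 w1 h1 ∅ a1 a2' a3' hemp
        rw [dec0 w1 h1 a1 a2' a3']
        exact r6 _ F hF
    have e2 : SumX N k (n + 1) (PI N b m ∅) (GI N b m) w h
        (fun F => α (uw (m / N) (e / N) (yy N m) n (dd n F))) := by
      refine e1.neg.congr fun w1 h1 a1 a2 a3 F hF => ?_
      have a2' : w1 < 1 / (4 * N) := a2.trans hw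
      have a3' : 0 < h1 := hh.trans a3
      obtain ⟨_, _, _, _, _, r6, _⟩ := X2 w1 h1 ∅ a1 a2' a3' hemp
      have b1 : BO n (US N (PI N b m ∅) (GI N b m) w h) (dd n F) :=
        dd_BO hE1 hN hsV a1.le a2 a3 hF
      have b2 : BO (n + 4) (US N (PI N b e {m}) (GI N b e) w1 h1)
          (uw (m / N) (e / N) (yy N m) (n + 1) F) := by
        rw [dec0 w1 h1 a1 a2' a3']
        exact r6 _ F hF
      have b3 : BO (n + 3) (US N (PI N b e {m}) (GI N b e) w h)
          (dd (n + 3) (uw (m / N) (e / N) (yy N m) (n + 1) F)) := dd_BO hE1 hN hsU a1.le a2 a3 b2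
      have b4 : BO (n + 3) (US N (PI N b e {m}) (GI N b e) w h)
          (uw (m / N) (e / N) (yy N m) n (dd n F)) := by
        rw [hU]
        exact q6 _ _ b1
      have b5 : α (uw (m / N) (e / N) (yy N m) n (dd n F))
          = α (fun z => (-1 : ℂ) * dd (n + 3) (uw (m / N) (e / N) (yy N m) (n + 1) F) z) := by
        refine hα.ext' b4 (b3.smul (-1)) fun z hz => ?_
        rw [hU] at hz
        rw [q8 n F (hF.mono (US_mono le_rfl le_rfl a2.le a3.le)) z hz]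
        ring
      rw [b5, hα.smul (-1) _ b3]
      ring
    exact SumX.mono e2 le_rfl le_rfl le_rfl hw'w.le hhh.le
  · -- the difference is exact
    have hex : ExX N k (n + 3) (PI N b e {m}) (GI N b e) w h (fun F =>
        α F - α (ext0 (m / N) (e / N) F)
          - α (uw (m / N) (e / N) (yy N m) n (c3 (yy N m) n F))) := by
      refine ⟨fun F => α (hop (n + 2) F), ?_, ?_⟩
      · rw [hU]
        exact FH w h ∅ hw0 hw hh hemp (n + 2) α hα'
      · have e1 : SumX N k (n + 3) (PI N b e {m}) (GI N b e) w h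
            (fun F => α (dd (n + 3) (hop (n + 3) F))) := by
          refine x4b_sumX (P := PI N b e {m}) (G := GI N b e) hc (hop (n + 3)) ?_ ?_
          · intro i hi δ hδ
            rw [deci w h i hi hw0 hw hh]
            exact FH w h _ hw0 hw hh (x4b_slit g hi) (n + 3) δ (slit i hi _ δ hδ)
          · intro w1 h1 a1 a2 a3 F hF
            have a2' : w1 < 1 / (4 * N) := a2.trans hw
            have a3' : 0 < h1 := hh.trans a3
            obtain ⟨r1, _⟩ := X1 w1 h1 ∅ a1 a2' a3' hemp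
            rw [dec0 w1 h1 a1 a2' a3'] at hF ⊢
            exact r1 _ F hF
        refine e1.congr fun w1 h1 a1 a2 a3 F hF => ?_
        have a2' : w1 < 1 / (4 * N) := a2.trans hw
        have a3' : 0 < h1 := hh.trans a3
        obtain ⟨r1, _⟩ := X1 w1 h1 ∅ a1 a2' a3' hemp
        have hF0 : BO (n + 3) (US N (PI N b e {m}) (GI N b e) w h) F :=
          hF.mono (US_mono le_rfl le_rfl a2.le a3.le)
        have hF0' : BO (n + 3) (US N (PI N b m ∅) (GI N b m) w h ∪ RR (m / N) (e / N) w h) F := by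
          rw [← hU]
          exact hF0
        have hFV : BO (n + 3) (US N (PI N b m ∅) (GI N b m) w h) F :=
          hF0'.mono Set.subset_union_left
        have b1 : BO (n + 4) (US N (PI N b e {m}) (GI N b e) w1 h1) (hop (n + 3) F) := by
          rw [dec0 w1 h1 a1 a2' a3'] at hF ⊢
          exact r1 _ F hF
        have b2 : BO (n + 3) (US N (PI N b e {m}) (GI N b e) w h)
            (dd (n + 3) (hop (n + 3) F)) := dd_BO hE1 hN hsU a1.le a2 a3 b1
        have b3 : BO (n + 2) (US N (PI N b e {m}) (GI N b e) w h) (dd (n + 2) F) :=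
          dd_BO hE1 hN hsU a1.le a2 a3 hF
        have b4 : BO (n + 3) (US N (PI N b e {m}) (GI N b e) w h)
            (hop (n + 2) (dd (n + 2) F)) := by
          rw [hU] at b3 ⊢
          exact p1 _ _ b3
        have b5 : BO (n + 3) (US N (PI N b e {m}) (GI N b e) w h) (ext0 (m / N) (e / N) F) := by
          rw [hU]
          exact q4 _ _ hFV
        have b6 : BO (n + 3) (US N (PI N b e {m}) (GI N b e) w h)
            (uw (m / N) (e / N) (yy N m) n (c3 (yy N m) n F)) := by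
          rw [hU]
          exact q6 _ _ (q10 _ _ hF0')
        have key : α (fun z => dd (n + 3) (hop (n + 3) F) z + hop (n + 2) (dd (n + 2) F) z)
            = α (fun z => (F z - ext0 (m / N) (e / N) F z)
              - uw (m / N) (e / N) (yy N m) n (c3 (yy N m) n F) z) := by
          refine hα.ext' (b2.add b4) ((hF0.sub b5).sub b6) fun z hz => ?_
          rw [hU] at hz
          have := p4 (n + 2) F hF0' z hz
          rw [this]
          change F z - (ext0 (m / N) (e / N) F z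
            + uw (m / N) (e / N) (yy N m) n (c3 (yy N m) n F) z) = _
          ring
        rw [hα.add _ _ b2 b4] at key
        have k2 : α (fun z => (F z - ext0 (m / N) (e / N) F z)
              - uw (m / N) (e / N) (yy N m) n (c3 (yy N m) n F) z)
            = α F - α (ext0 (m / N) (e / N) F)
              - α (uw (m / N) (e / N) (yy N m) n (c3 (yy N m) n F)) := by
          rw [hα.sub' (hF0.sub b5) b6, hα.sub' hF0 b5]
        rw [k2] at key
        linear_combination (-1 : ℂ) * key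
    exact ExX.mono hex le_rfl le_rfl le_rfl hw'w.le hhh.le

end Pool.Agent.Helper67.DO
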